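import Pool.Agent.Helper66_D2.Tool
import Pool.Agent.Helper94_PP.Bridge
import Pool.Agent.Helper94_PP.StmtsKR
import Pool.Agent.Helper20_PP.Ibr

/-!
# Squad PP, part D2: module DZB

A block which is a relative trace from the trivial subgroup is a matrix algebra.
-/

open scoped BigOperators

set_option linter.unusedSectionVars false

noncomputable section

namespace Pool.Agent.PP.CD2.H62

open Pool.Agent.PP Pool.Agent.Helper51_AWC Pool.Agent.Helper79_WRA

variable {F : Type} [Field F] {G : Type} [Group G] [Finite G]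

/-- `a` acts as zero in all irreducible representations -/
def Zr (a : G → F) : Prop :=
  ∀ (n : ℕ) (ρ : G →* Matrix (Fin n) (Fin n) F), IsIrr ρ → ev ρ a = 0

theorem cent {e : G → F} (he : IsIdem e) (y : MonoidAlgebra F G) : ma e * y = y * ma e := by
  have h := ((isIdem_iff e).1 he).1
  rw [Subalgebra.mem_center_iff] at h
  exact (h y).symm

theorem idem {e : G → F} (he : IsIdem e) : ma e * ma e = ma e := ((isIdem_iff e).1 he).2

theorem zr_ma {x : MonoidAlgebra F G} {a : G → F} (h : ma a = x) : Zr a ↔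
    ∀ (n : ℕ) (ρ : G →* Matrix (Fin n) (Fin n) F), IsIrr ρ → repA ρ x = 0 := by
  unfold Zr
  simp only [ev_eq, h]

/-- the elements under `e` which act as zero in all irreducible representations -/
def Jd (e : G → F) : Submodule F (MonoidAlgebra F G) where
  carrier := {x | ma e * x = x ∧
    ∀ (n : ℕ) (ρ : G →* Matrix (Fin n) (Fin n) F), IsIrr ρ → repA ρ x = 0}
  add_mem' := by
    rintro x y ⟨h1, h2⟩ ⟨h3, h4⟩
    exact ⟨by rw [mul_add, h1, h3], fun n ρ hρ => by rw [map_add, h2 n ρ hρ, h4 n ρ hρ, add_zero]⟩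
  zero_mem' := ⟨mul_zero _, fun _ _ _ => map_zero _⟩
  smul_mem' := by
    rintro c x ⟨h1, h2⟩
    exact ⟨by rw [mul_smul_comm, h1], fun n ρ hρ => by rw [map_smul, h2 n ρ hρ, smul_zero]⟩

theorem jd_mul {e : G → F} (he : IsIdem e) (y : MonoidAlgebra F G) {x : MonoidAlgebra F G}
    (hx : x ∈ Jd e) : y * x ∈ Jd e := by
  refine ⟨?_, fun n ρ hρ => ?_⟩
  · rw [← mul_assoc, cent he, mul_assoc, hx.1]
  · rw [map_mul, hx.2 n ρ hρ, mul_zero]

/-- the averaged projection -/
def av (z : MonoidAlgebra F G) (r : MonoidAlgebra F G →ₗ[F] MonoidAlgebra F G) :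
    MonoidAlgebra F G →ₗ[F] MonoidAlgebra F G :=
  letI := Fintype.ofFinite G
  ∑ g : G, (LinearMap.mulLeft F (MonoidAlgebra.single g (1 : F) * z)) ∘ₗ r ∘ₗ
    (LinearMap.mulLeft F (MonoidAlgebra.single g⁻¹ (1 : F)))

theorem av_apply [Fintype G] (z : MonoidAlgebra F G)
    (r : MonoidAlgebra F G →ₗ[F] MonoidAlgebra F G) (x : MonoidAlgebra F G) :
    av z r x = ∑ g : G, MonoidAlgebra.single g (1 : F) * z *
      r (MonoidAlgebra.single g⁻¹ (1 : F) * x) := by
  unfold av
  rw [LinearMap.sum_apply]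
  have e : Fintype.ofFinite G = ‹Fintype G› := Subsingleton.elim _ _
  rw [e]
  rfl

theorem sgl_mul (g h : G) : (MonoidAlgebra.single g (1 : F) : MonoidAlgebra F G) *
    MonoidAlgebra.single h (1 : F) = MonoidAlgebra.single (g * h) (1 : F) := by
  rw [MonoidAlgebra.single_mul_single, mul_one]

theorem sgl_one : (MonoidAlgebra.single (1 : G) (1 : F) : MonoidAlgebra F G) = 1 := rfl

/-- the averaged projection is linear over the group ring -/
theorem av_mul (z : MonoidAlgebra F G) (r : MonoidAlgebra F G →ₗ[F] MonoidAlgebra F G)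
    (y x : MonoidAlgebra F G) : av z r (y * x) = y * av z r x := by
  have := Fintype.ofFinite G
  induction y using MonoidAlgebra.induction_linear with
  | zero => rw [zero_mul, zero_mul, map_zero]
  | add f g hf hg => rw [add_mul, add_mul, map_add, hf, hg]
  | single h c =>
    have e : (MonoidAlgebra.single h c : MonoidAlgebra F G) =
        c • (MonoidAlgebra.single h 1 : MonoidAlgebra F G) := by
      rw [MonoidAlgebra.smul_single, smul_eq_mul, mul_one]
    rw [e, smul_mul_assoc, map_smul, smul_mul_assoc]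
    congr 1
    rw [av_apply, av_apply, Finset.mul_sum]
    symm
    refine Fintype.sum_equiv (Equiv.mulLeft h) _ _ fun g => ?_
    change _ = MonoidAlgebra.single (h * g) (1 : F) * z *
      r (MonoidAlgebra.single (h * g)⁻¹ (1 : F) * (MonoidAlgebra.single h (1 : F) * x))
    rw [← mul_assoc (MonoidAlgebra.single (h * g)⁻¹ (1 : F)), sgl_mul, ← sgl_mul h g]
    have e2 : (h * g)⁻¹ * h = g⁻¹ := by group
    rw [e2]
    simp only [mul_assoc]

/-- the relative trace from the trivial subgroup -/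
theorem prj_sum [Fintype G] {e : G → F} (hp : PrjB (⊤ : Subgroup G) ⊥ e) : ∃ z : G → F,
    ma e = ∑ g : G, MonoidAlgebra.single g (1 : F) * ma z * MonoidAlgebra.single g⁻¹ (1 : F) := by
  obtain ⟨c, z, hc, -, -, h⟩ := hp
  refine ⟨z, ?_⟩
  have hc1 : ∀ g : G, c g = 1 := by
    intro g
    have h1 := hc.sum g (Subgroup.mem_top g)
    rw [finsum_eq_single (fun p : (⊥ : Subgroup G) => c (g * p)) 1] at h1
    · rw [OneMemClass.coe_one, mul_one] at h1
      exact h1
    · intro p hp
      exact absurd (Subsingleton.elim p 1) hp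
  have h2 : ∀ g : G, MonoidAlgebra.single g (1 : F) * ma z * MonoidAlgebra.single g⁻¹ (1 : F) =
      ma (fun y => z (g⁻¹ * y * g)) := fun g => (H66.toMA_conj g z).symm
  rw [Finset.sum_congr rfl fun g _ => h2 g, ← ma_sum]
  congr 1
  funext y
  rw [h y, finsum_eq_sum_of_fintype, Finset.sum_apply]
  exact Finset.sum_congr rfl fun g _ => by rw [hc1, one_mul]

/-- no nilpotent elements -/
theorem jz {ℓ : ℕ} (hF : GoodF ℓ F) (ibn : IbnStmt) {e : G → F} (he : IsIdem e)
    (hp : PrjB (⊤ : Subgroup G) ⊥ e) {a : G → F} (h1 : mulF e a = a) (h2 : Zr a) : a = 0 := by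
  have := Fintype.ofFinite G
  obtain ⟨z, hz⟩ := prj_sum hp
  obtain ⟨p, hpp⟩ := LinearMap.exists_leftInverse_of_injective (Jd e).subtype
    (Submodule.ker_subtype _)
  set r : MonoidAlgebra F G →ₗ[F] MonoidAlgebra F G := (Jd e).subtype ∘ₗ p with hr
  have hr1 : ∀ x, r x ∈ Jd e := fun x => (p x).2
  have hr2 : ∀ x ∈ Jd e, r x = x := by
    intro x hx
    have := LinearMap.congr_fun hpp ⟨x, hx⟩
    change (p x : MonoidAlgebra F G) = x
    exact congrArg Subtype.val this
  have hav1 : ∀ x, av (ma z) r x ∈ Jd e := by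
    intro x
    rw [av_apply]
    exact Submodule.sum_mem _ fun g _ => jd_mul he _ (hr1 _)
  have hav2 : ∀ x ∈ Jd e, av (ma z) r x = x := by
    intro x hx
    rw [av_apply]
    have h3 : ∀ g : G, MonoidAlgebra.single g (1 : F) * ma z *
        r (MonoidAlgebra.single g⁻¹ (1 : F) * x) =
        (MonoidAlgebra.single g (1 : F) * ma z * MonoidAlgebra.single g⁻¹ (1 : F)) * x := by
      intro g
      rw [hr2 _ (jd_mul he _ hx), ← mul_assoc]
    rw [Finset.sum_congr rfl fun g _ => h3 g, ← Finset.sum_mul, ← hz]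
    exact hx.1
  have hx : ma a ∈ Jd e := ⟨by rw [← ma_mul, h1], (zr_ma rfl).1 h2⟩
  set u := av (ma z) r (ma e) with hu
  obtain ⟨u', hu'⟩ := ma_surjective u
  have hn : ∃ k : ℕ, u ^ k = 0 := by
    obtain ⟨k, hk⟩ := ibn ℓ F hF G u' ((zr_ma hu').2 (hav1 _).2)
    refine ⟨k + 1, ?_⟩
    have := congrArg ma hk
    rw [ma_iterate, hu', ma_zero] at this
    rw [pow_succ, this]
  obtain ⟨k, hk⟩ := hn
  have h4 : ma a = ma a * u := by
    conv_lhs => rw [← hav2 _ hx, ← hx.1, cent he, av_mul]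
  have h5 : ∀ m : ℕ, ma a = ma a * u ^ m := by
    intro m
    induction m with
    | zero => rw [pow_zero, mul_one]
    | succ m ih => rw [pow_succ, ← mul_assoc, ← ih, ← h4]
  have h6 := h5 k
  rw [hk, mul_zero] at h6
  exact ma_injective (h6.trans ma_zero.symm)

/-- the value of a block idempotent -/
theorem ev_e (eig : EigStmt) {e : G → F} (he : IsIdem e) {n : ℕ}
    {ρ : G →* Matrix (Fin n) (Fin n) F} (hρ : IsIrr ρ) : ev ρ e = 0 ∨ ev ρ e = 1 := by
  obtain ⟨w, h1, -, h3⟩ := eig F G n ρ hρ e he.1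
  rcases h3 he with h | h
  · left
    rw [h1, h, map_zero]
  · right
    rw [h1, h, map_one]

theorem one_ne {n : ℕ} (hn : 0 < n) : (1 : Matrix (Fin n) (Fin n) F) ≠ 0 := by
  intro h
  have := congrFun (congrFun h ⟨0, hn⟩) ⟨0, hn⟩
  rw [Matrix.one_apply_eq, Matrix.zero_apply] at this
  exact one_ne_zero this

theorem ex_irr {ℓ : ℕ} (hF : GoodF ℓ F) (ibn : IbnStmt) (eig : EigStmt) {e : G → F}
    (he : IsIdem e) (h0 : e ≠ 0) (hp : PrjB (⊤ : Subgroup G) ⊥ e) :
    ∃ (n : ℕ) (σ : G →* Matrix (Fin n) (Fin n) F), IsIrr σ ∧ ev σ e = 1 := by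
  by_contra hcon
  push Not at hcon
  apply h0
  refine jz hF ibn he hp he.2 fun n ρ hρ => ?_
  rcases ev_e eig he hρ with h | h
  · exact h
  · exact absurd h (hcon n ρ hρ)

/-- equal traces: equal zeros -/
theorem ev_conj {ℓ : ℕ} (hF : GoodF ℓ F) (ibc : IbcStmt) {n m : ℕ}
    {ρ : G →* Matrix (Fin n) (Fin n) F} {σ : G →* Matrix (Fin m) (Fin m) F} (hρ : IsIrr ρ)
    (hσ : IsIrr σ) (h : tr ρ = tr σ) (a : G → F) : (ev σ a = 0 → ev ρ a = 0) ∧
    (ev σ a = 1 → ev ρ a = 1) := by
  have := Fintype.ofFinite G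
  obtain ⟨X, Y, -, -, hYX, hX⟩ := ibc ℓ F hF G n m ρ σ hρ hσ h
  have h1 : X * ev ρ a = ev σ a * X := by
    unfold ev
    rw [finsum_eq_sum_of_fintype, finsum_eq_sum_of_fintype, Matrix.mul_sum, Matrix.sum_mul]
    refine Finset.sum_congr rfl fun t _ => ?_
    rw [Matrix.mul_smul, Matrix.smul_mul, hX]
  have h2 : ev ρ a = Y * (ev σ a * X) := by
    rw [← h1, ← Matrix.mul_assoc, hYX, Matrix.one_mul]
  constructor
  · intro h3
    rw [h2, h3, Matrix.zero_mul, Matrix.mul_zero]
  · intro h3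
    rw [h2, h3, Matrix.one_mul, hYX]

/-- linear conditions -/
theorem sub_e {e : G → F} {a c : G → F} (ha : mulF e a = a) (hc : mulF e c = c) :
    mulF e (a - c) = a - c := by
  apply ma_injective
  rw [ma_mul, ma_sub, mul_sub, ← ma_mul, ← ma_mul, ha, hc]

theorem ev_sub' {n : ℕ} (ρ : G →* Matrix (Fin n) (Fin n) F) (a c : G → F) :
    ev ρ (a - c) = ev ρ a - ev ρ c := by
  rw [ev_eq, ev_eq, ev_eq, ma_sub, map_sub]

/-- there is only one irreducible representation over the block -/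
theorem uniq {ℓ : ℕ} (hF : GoodF ℓ F) (ibn : IbnStmt) (ibj : IbjStmt) (ibc : IbcStmt)
    (ibf : IbfStmt) {e : G → F} (he : IsBlk e)
    (hp : PrjB (⊤ : Subgroup G) ⊥ e) {n m : ℕ} {σ : G →* Matrix (Fin n) (Fin n) F}
    {τ : G →* Matrix (Fin m) (Fin m) F} (hσ : IsIrr σ) (hτ : IsIrr τ) (hσe : ev σ e = 1)
    (hτe : ev τ e = 1) : tr τ = tr σ := by
  classical
  by_contra hne
  have hfin : Finite (IBr F G) := (ibf ℓ F hF G).1
  choose N ρ hρ using fun f : IBr F G => f.2
  have hinj : Function.Injective (fun f : IBr F G => tr (ρ f)) := by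
    intro f g hfg
    change tr (ρ f) = tr (ρ g) at hfg
    rw [← (hρ f).2, ← (hρ g).2] at hfg
    exact Subtype.ext hfg
  obtain ⟨a, ha⟩ := ibj ℓ F hF G (IBr F G) N ρ (fun f => (hρ f).1) hinj
    (fun f => if (f : G → F) = tr σ then 1 else 0)
  set g : G → F := mulF e a with hg
  have heg : mulF e g = g := by
    rw [hg, ← mulF_assoc, he.1.2]
  -- values of `g`
  have hv : ∀ (k : ℕ) (κ : G →* Matrix (Fin k) (Fin k) F), IsIrr κ →
      (tr κ = tr σ → ev κ g = 1) ∧ (tr κ ≠ tr σ → ev κ g = 0) := by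
    intro k κ hκ
    set f : IBr F G := ⟨tr κ, k, κ, hκ, rfl⟩ with hf
    have h1 : tr κ = tr (ρ f) := (hρ f).2
    have h2 := ha f
    constructor
    · intro h
      have h3 : ev (ρ f) a = 1 := by
        rw [h2, if_pos h]
      have h4 := (ev_conj hF ibc hκ (hρ f).1 h1 a).2 h3
      have h5 := (ev_conj hF ibc hκ hσ h e).2 hσe
      rw [hg, ev_mulF, h4, h5, Matrix.one_mul]
    · intro h
      have h3 : ev (ρ f) a = 0 := by
        rw [h2, if_neg h]
      have h4 := (ev_conj hF ibc hκ (hρ f).1 h1 a).1 h3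
      rw [hg, ev_mulF, h4, Matrix.mul_zero]
  have hv' : ∀ (k : ℕ) (κ : G →* Matrix (Fin k) (Fin k) F), IsIrr κ → ev κ g = 1 ∨ ev κ g = 0 := by
    intro k κ hκ
    by_cases h : tr κ = tr σ
    · exact Or.inl ((hv k κ hκ).1 h)
    · exact Or.inr ((hv k κ hκ).2 h)
  -- `g` is central
  have hcl : IsCl g := by
    rw [isCl_iff, Subalgebra.mem_center_iff]
    intro y
    obtain ⟨y', rfl⟩ := ma_surjective y
    have h1 : mulF y' g - mulF g y' = 0 := by
      refine jz hF ibn he.1 hp ?_ fun k κ hκ => ?_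
      · apply sub_e
        · apply ma_injective
          rw [ma_mul, ma_mul, ← mul_assoc, cent he.1, mul_assoc, ← ma_mul e g, heg]
        · rw [← mulF_assoc, heg]
      · rw [ev_sub', ev_mulF κ y' g, ev_mulF κ g y']
        rcases hv' k κ hκ with h | h
        · rw [h, Matrix.mul_one, Matrix.one_mul, sub_self]
        · rw [h, Matrix.mul_zero, Matrix.zero_mul, sub_self]
    have h2 := sub_eq_zero.1 h1
    rw [← ma_mul, ← ma_mul, h2]
  have hid : mulF g g = g := by
    have h1 : mulF g g - g = 0 := by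
      refine jz hF ibn he.1 hp ?_ fun k κ hκ => ?_
      · apply sub_e
        · rw [← mulF_assoc, heg]
        · exact heg
      · rw [ev_sub', ev_mulF κ g g]
        rcases hv' k κ hκ with h | h
        · rw [h, Matrix.mul_one, sub_self]
        · rw [h, Matrix.mul_zero, sub_self]
    exact sub_eq_zero.1 h1
  have hσg := (hv n σ hσ).1 rfl
  have hτg := (hv m τ hτ).2 hne
  rcases he.2.2 g ⟨hcl, hid⟩ with h | h
  · rw [heg] at h
    rw [h, hτe] at hτg
    exact one_ne hτ.1 hτg
  · rw [heg] at h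
    rw [h, ev_eq, ma_zero, map_zero] at hσg
    exact one_ne hσ.1 hσg.symm

/-- faithfulness -/
theorem zz {ℓ : ℕ} (hF : GoodF ℓ F) (ibn : IbnStmt) (ibj : IbjStmt) (ibc : IbcStmt)
    (eig : EigStmt) (ibf : IbfStmt) {e : G → F} (he : IsBlk e)
    (hp : PrjB (⊤ : Subgroup G) ⊥ e) {n : ℕ} {σ : G →* Matrix (Fin n) (Fin n) F}
    (hσ : IsIrr σ) (hσe : ev σ e = 1) {a c : G → F} (ha : mulF e a = a) (hc : mulF e c = c)
    (h : ev σ a = ev σ c) : a = c := by
  have h1 : a - c = 0 := by
    refine jz hF ibn he.1 hp (sub_e ha hc) fun k κ hκ => ?_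
    rcases ev_e eig he.1 hκ with h2 | h2
    · rw [← sub_e ha hc, ev_mulF, h2, Matrix.zero_mul]
    · have h3 := uniq hF ibn ibj ibc ibf he hp hσ hκ hσe h2
      exact (ev_conj hF ibc hκ hσ h3 _).1 (by rw [ev_sub', h, sub_self])
  exact sub_eq_zero.1 h1

/-- DZB -/
theorem dzb (ibn : IbnStmt) (ibj : IbjStmt) (ibc : IbcStmt) (eig : EigStmt) (ibf : IbfStmt) :
    DzbStmt := by
  classical
  intro ℓ _ F _ hF G _ _ e he hp
  obtain ⟨n, σ, hσ, hσe⟩ := ex_irr hF ibn eig he.1 he.2.1 hp
  have hex : ∀ M : Matrix (Fin n) (Fin n) F, ∃ a : G → F, mulF e a = a ∧ ev σ a = M := by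
    intro M
    obtain ⟨a, ha⟩ := ibj ℓ F hF G Unit (fun _ => n) (fun _ => σ) (fun _ => hσ)
      (fun _ _ _ => rfl) (fun _ => M)
    refine ⟨mulF e a, by rw [← mulF_assoc, he.1.2], ?_⟩
    rw [ev_mulF, hσe, ha (), Matrix.one_mul]
  choose A hA1 hA2 using hex
  set z : Fin n := ⟨0, hσ.1⟩ with hz
  set i : G → F := A (Matrix.single z z 1) with hi
  have hi1 : mulF e i = i := hA1 _
  have hi2 : ev σ i = Matrix.single z z 1 := hA2 _
  have key : ∀ {a c : G → F}, mulF e a = a → mulF e c = c → ev σ a = ev σ c → a = c :=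
    fun ha hc h => zz hF ibn ibj ibc eig ibf he hp hσ hσe ha hc h
  have hmul : ∀ a c : G → F, mulF e a = a → mulF e (mulF a c) = mulF a c := by
    intro a c ha
    rw [← mulF_assoc, ha]
  refine ⟨i, ?_⟩
  refine
    { sb := fun x hx => absurd (Subgroup.mem_top x) hx
      sw := fun x hx => absurd (Subgroup.mem_top x) hx
      si := fun x hx => absurd (Subgroup.mem_top x) hx
      cb := fun c _ x => he.1.1 x c
      cw := fun _ _ _ => rfl
      bb := he.1.2
      bw := ?_
      ii := ?_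
      bi := hi1
      nil := ?_
      nz := ?_
      loc := ?_
      full := ?_ }
  · apply ma_injective
    rw [ma_mul, ma_zero, mul_zero]
  · refine key (hmul _ _ hi1) hi1 ?_
    rw [ev_mulF, hi2, Matrix.single_mul_single_same, mul_one]
  · change mulF 0 e = 0
    apply ma_injective
    rw [ma_mul, ma_zero, zero_mul]
  · change i ≠ 0
    intro h
    have h1 := hi2
    rw [h, ev_eq, ma_zero, map_zero] at h1
    have h2 := congrFun (congrFun h1 z) z
    rw [Matrix.zero_apply, Matrix.single_apply_same] at h2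
    exact zero_ne_one h2
  · intro a _
    refine ⟨fun _ => ev σ a z z, ?_⟩
    rw [Finset.sum_range_one]
    change mulF i (mulF a i) = ev σ a z z • i
    refine key (hmul _ _ hi1) ?_ ?_
    · apply ma_injective
      rw [ma_mul, ma_smul, mul_smul_comm, ← ma_mul, hi1]
    · rw [ev_mulF, ev_mulF, ev_smul, hi2, ← Matrix.mul_assoc, Matrix.single_mul_mul_single,
        Matrix.smul_single, one_mul, mul_one, smul_eq_mul, mul_one]
  · refine ⟨n, fun k => A (Matrix.single k z 1), fun k => A (Matrix.single z k 1), fun k =>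
      ⟨fun x hx => absurd (Subgroup.mem_top x) hx, fun x hx => absurd (Subgroup.mem_top x) hx⟩, ?_⟩
    refine key ?_ he.1.2 ?_
    · apply ma_injective
      rw [ma_mul, ma_sum, Finset.mul_sum]
      refine Finset.sum_congr rfl fun k _ => ?_
      rw [← ma_mul, hmul _ _ (hA1 _)]
    · rw [hσe, ev_eq, ma_sum, map_sum]
      have h1 : ∀ k : Fin n, repA σ (ma (mulF (A (Matrix.single k z 1))
          (mulF i (A (Matrix.single z k 1))))) = Matrix.single k k 1 := by
        intro k
        rw [← ev_eq, ev_mulF, ev_mulF, hA2, hA2, hA2, Matrix.single_mul_single_same,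
          Matrix.single_mul_single_same, mul_one, mul_one]
      rw [Finset.sum_congr rfl fun k _ => h1 k]
      ext a c
      rw [Matrix.sum_apply, Matrix.one_apply]
      by_cases hac : a = c
      · rw [if_pos hac, ← hac, Finset.sum_eq_single a]
        · exact Matrix.single_apply_same _ _ _
        · intro b _ hb
          exact Matrix.single_apply_of_ne _ _ _ _ _ (fun h => hb h.1)
        · intro h
          exact absurd (Finset.mem_univ _) h
      · rw [if_neg hac]
        refine Finset.sum_eq_zero fun b _ => ?_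
        exact Matrix.single_apply_of_ne _ _ _ _ _ (fun h => hac (h.1.symm.trans h.2))

end Pool.Agent.PP.CD2.H62
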